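import Pool.Agent.H.MP_12e671_al.B

set_option autoImplicit false

namespace Pool.Agent.Results.MP_12e671_al.No

open Set SimpleGraph Pool.Agent.Bei

theorem result (n : ℕ) (G : SimpleGraph (Fin n)) (h : Unm G) (m : ℕ) (hm : 6 ≤ m) :
    IsEmpty (cycleGraph m ↪g G) := by
  refine ⟨fun φ => ?_⟩
  have e : ∀ u v : Fin m, G.Adj (φ u) (φ v) ↔ u.1 + 1 = v ∨ v.1 + 1 = u ∨
      u.1 = 0 ∧ v.1 + 1 = m ∨ v.1 = 0 ∧ u.1 + 1 = m := fun u v => by
    rw [φ.map_adj_iff, cycleGraph_adj']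
    have := @Fin.coe_sub_iff_le _ u v
    have := @Fin.coe_sub_iff_lt _ u v
    have := @Fin.coe_sub_iff_le _ v u
    have := @Fin.coe_sub_iff_lt _ v u
    omega
  let A := fun i j => φ '' {v : Fin m | i ≤ v.1 ∧ v.1 ≤ j}
  have h1 : ∀ i j, i ≤ j → j < m → Con G (A i j) := fun i j h1 => by
    induction j, h1 using Nat.le_induction with
    | base =>
      intro h
      convert con_one (G := G) (x := φ ⟨i, h⟩)
      rw [← image_singleton]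
      refine congrArg (φ '' ·) ?_
      grind
    | succ j h1 ih =>
      intro h
      convert (ih (by omega)).union con_one ⟨⟨j, by omega⟩, ⟨h1, le_rfl⟩, rfl⟩ rfl
        (.inr ((e _ ⟨j + 1, h⟩).2 (.inl rfl)))
      rw [← image_singleton, ← image_union]
      refine congrArg (φ '' ·) (Set.ext fun v => ?_)
      simp [Fin.ext_iff]
      omega
  have h2 : ∀ i j k l, i ≤ j → j + 1 < k → l < m → (i = 0 → l + 1 < m) → Far G (A i j) (A k l) :=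
    fun i j k l _ _ _ _ => ⟨disjoint_left.2 (by
      rintro _ ⟨u, ⟨_, _⟩, rfl⟩ ⟨v, ⟨_, _⟩, e⟩
      obtain rfl := φ.injective e
      omega), disjoint_left.2 (by
      rintro _ ⟨_, ⟨u, ⟨_, _⟩, rfl⟩, e'⟩ ⟨v, ⟨_, _⟩, rfl⟩
      rw [e] at e'
      omega)⟩
  have h3 : ∀ i j, i ≤ j → j < m → (A i j).Nonempty := fun i j h h' =>
    ⟨_, ⟨j, h'⟩, ⟨h, le_rfl⟩, rfl⟩
  have h4 : ∀ i j k l, i ≤ j → k ≤ l → j < m → l < m → j + 1 = k ∨ k = 0 ∧ j + 1 = m →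
      Con G (A i j ∪ A k l) := fun i j k l a b c d f =>
    (h1 i j a c).union (h1 k l b d) ⟨⟨j, c⟩, ⟨a, le_rfl⟩, rfl⟩ ⟨⟨k, by omega⟩, ⟨le_rfl, b⟩, rfl⟩
      (.inr ((e _ _).2 (by grind)))
  refine Hx.false (a := A 0 0) (b := A 1 1) (c := A 2 2) (d := A 3 3) (e := A 4 4)
    (f := A 5 (m - 1)) ?_ h
  refine ⟨?_, ?_, ?_, ?_, ?_, ?_⟩ <;> refine ⟨h3 _ _ ?_ ?_, h1 _ _ ?_ ?_,
    h4 _ _ _ _ ?_ ?_ ?_ ?_ ?_, ?_, ?_⟩ <;>
    first | omega | (apply h2 <;> omega) | (apply Far.symm; apply h2 <;> omega)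

end Pool.Agent.Results.MP_12e671_al.No
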